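import Pool.Agent.Helper69.QAC.Main

/-!
# Systems of forms in many variables over a nonreal function field of one real variable
-/

set_option autoImplicit false

namespace Pool.Agent.Results.MP_c95eae_ag.ManyVariables

open MvPolynomial Pool.Agent.Helper69.QAC

/-- `N r D`, the number of variables needed for `r` forms of degrees at most `D`: `N r 0 = 1`,
`N 1 D = D + 1` for `1 ≤ D ≤ 3`, `N 1 4 = 106`, and in all other cases
`N r D = r * ⌊D * C(2 k + D - 1, D) / 2⌋ + 1` with `k = N r ⌊D / 2⌋`. -/
def N (r : ℕ) : ℕ → ℕ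
  | 0 => 1
  | D + 1 => if r = 1 ∧ D + 1 ≤ 3 then D + 2 else if r = 1 ∧ D + 1 = 4 then 106 else
      r * ((D + 1) * (2 * N r ((D + 1) / 2) + D).choose (D + 1) / 2) + 1
  decreasing_by omega

theorem N_eq (r D : ℕ) : N r D = bnd r D := by
  induction D using Nat.strong_induction_on with
  | _ D ih =>
    rcases D with _ | D
    · rw [N, bnd_zero]
    · rw [N, ih _ (by omega)]
      by_cases h1 : r = 1 ∧ D + 1 ≤ 3
      · rw [if_pos h1, bnd, if_neg (by omega), if_pos h1]
      · by_cases h2 : r = 1 ∧ D + 1 = 4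
        · rw [if_neg h1, if_pos h2, bnd, if_neg (by omega), if_neg h1, if_pos h2]
        · rw [if_neg h1, if_neg h2, bnd_gen r (D + 1) (Nat.succ_pos _) (by omega)]
          rfl

/-- Let `K` be a finitely generated extension field of `ℝ` of transcendence degree one in which
`-1` is a sum of squares. Any `r` forms over `K`, of degrees between `1` and `D`, in at least
`N r D` variables have a common nontrivial zero. -/
theorem result (K : Type) [Field K] [Algebra ℝ K] (hFG : (⊤ : IntermediateField ℝ K).FG)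
    (htr : ∃ t : K, IsTranscendenceBasis ℝ (fun _ : Unit => t)) (hs : IsSumSq (-1 : K))
    (r D n : ℕ) (hn : N r D ≤ n) (f : Fin r → MvPolynomial (Fin n) K)
    (hf : ∀ i, ∃ d, 0 < d ∧ d ≤ D ∧ (f i).IsHomogeneous d) :
    ∃ x : Fin n → K, x ≠ 0 ∧ ∀ i, eval x (f i) = 0 := by
  obtain ⟨t, ht⟩ := htr
  rw [N_eq] at hn
  exact main_rec hFG ht hs r D n hn f fun i => Or.inr (hf i)

end Pool.Agent.Results.MP_c95eae_ag.ManyVariables
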