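import Pool.Agent.Helper68.Zp.Diag

/-!
# Diagonal forms with real coefficients over fields of level at most two
-/

set_option autoImplicit false

namespace Pool.Agent.Results.MP_c95eae_ag.RealDiagonal

open Pool.Agent.Helper68.Zp

/-- Let `K` be a field containing `ℝ` in which `-1` is a sum of two squares. Every diagonal form
with real coefficients, of degree `d ≥ 1`, in more than `d` variables, has a nontrivial zero
over `K`. -/
theorem result (K : Type*) [Field K] [Algebra ℝ K] (hK : ∃ a b : K, a ^ 2 + b ^ 2 = -1)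
    (d n : ℕ) (hd : 0 < d) (hn : d < n) (c : Fin n → ℝ) :
    ∃ x : Fin n → K, x ≠ 0 ∧ ∑ i, algebraMap ℝ K (c i) * x i ^ d = 0 := by
  obtain ⟨a, b, hab⟩ := hK
  have hroot : ∀ t : ℝ, 0 ≤ t → ∃ r : ℝ, 0 ≤ r ∧ r ^ d = t := fun t ht =>
    ⟨t ^ ((d : ℝ)⁻¹), by positivity, Real.rpow_inv_natCast_pow ht hd.ne'⟩
  by_cases h0 : ∃ i, c i = 0
  · obtain ⟨i, hi⟩ := h0
    refine ⟨Pi.single i 1, ?_, ?_⟩
    · intro h
      have := congrFun h i
      simp at this
    · refine Finset.sum_eq_zero fun j _ => ?_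
      by_cases hj : j = i
      · rw [hj, hi, map_zero, zero_mul]
      · rw [Pi.single_eq_of_ne hj, zero_pow hd.ne', mul_zero]
  push Not at h0
  by_cases h1 : ∃ i j, 0 < c i ∧ c j < 0
  · obtain ⟨i, j, hi, hj⟩ := h1
    obtain ⟨p, hp, hpd⟩ := hroot (-c j) (by linarith)
    obtain ⟨q, hq, hqd⟩ := hroot (c i) hi.le
    have hij : i ≠ j := by
      rintro rfl
      linarith
    refine ⟨Pi.single i (algebraMap ℝ K p) + Pi.single j (algebraMap ℝ K q), ?_, ?_⟩
    · intro h
      have h2 := congrFun h j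
      rw [Pi.add_apply, Pi.single_eq_of_ne hij.symm, Pi.single_eq_same, zero_add, Pi.zero_apply,
        map_eq_zero] at h2
      rw [h2, zero_pow hd.ne'] at hqd
      linarith
    · rw [Finset.sum_eq_add i j hij]
      · rw [Pi.add_apply, Pi.add_apply, Pi.single_eq_same, Pi.single_eq_same,
          Pi.single_eq_of_ne hij.symm, Pi.single_eq_of_ne hij, add_zero, zero_add, ← map_pow,
          ← map_pow, hpd, hqd, ← map_mul, ← map_mul, ← map_add]
        rw [show c i * -c j + c j * c i = 0 by ring, map_zero]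
      · intro l _ hl
        rw [Pi.add_apply, Pi.single_eq_of_ne hl.1, Pi.single_eq_of_ne hl.2, add_zero,
          zero_pow hd.ne', mul_zero]
      · intro h
        exact absurd (Finset.mem_univ _) h
      · intro h
        exact absurd (Finset.mem_univ _) h
  push Not at h1
  obtain ⟨e, he⟩ : ∃ e : ℝ, ∀ i, c i = e * |c i| := by
    by_cases h2 : ∃ i, 0 < c i
    · obtain ⟨i, hi⟩ := h2
      exact ⟨1, fun j => by rw [abs_of_nonneg (h1 i j hi), one_mul]⟩
    · push Not at h2
      exact ⟨-1, fun j => by rw [abs_of_nonpos (h2 j)]; ring⟩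
  choose r hr0 hr using fun i => hroot |c i| (abs_nonneg _)
  have hr' : ∀ i, algebraMap ℝ K (r i) ≠ 0 := by
    intro i
    rw [Ne, map_eq_zero]
    intro h
    have h2 := hr i
    rw [h, zero_pow hd.ne'] at h2
    exact h0 i (abs_eq_zero.1 h2.symm)
  obtain ⟨y, hy, hy0⟩ := fermat_zero (K := K) hd hab
  refine ⟨fun i => if h : (i : ℕ) < d + 1 then y ⟨i, h⟩ / algebraMap ℝ K (r i) else 0, ?_, ?_⟩
  · intro h
    apply hy
    funext i
    have h1 := congrFun h ⟨i, by omega⟩
    simp only [i.2, dif_pos, Pi.zero_apply, div_eq_zero_iff] at h1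
    rcases h1 with h2 | h2
    · exact h2
    · exact absurd h2 (hr' _)
  · have h2 : ∀ i : Fin n, algebraMap ℝ K (c i) *
        (if h : (i : ℕ) < d + 1 then y ⟨i, h⟩ / algebraMap ℝ K (r i) else 0) ^ d =
        algebraMap ℝ K e * (if h : (i : ℕ) < d + 1 then y ⟨i, h⟩ ^ d else 0) := by
      intro i
      by_cases h : (i : ℕ) < d + 1
      · rw [dif_pos h, dif_pos h, div_pow, ← map_pow, hr i, he i, map_mul]
        have h3 : algebraMap ℝ K |c i| ≠ 0 := by
          rw [Ne, map_eq_zero]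
          exact abs_ne_zero.2 (h0 i)
        rw [← he i]
        field_simp
      · rw [dif_neg h, dif_neg h, zero_pow hd.ne', mul_zero, mul_zero]
    rw [Finset.sum_congr rfl fun i _ => h2 i, ← Finset.mul_sum]
    have h3 : ∑ i : Fin n, (if h : (i : ℕ) < d + 1 then y ⟨i, h⟩ ^ d else 0) =
        ∑ i : Fin (d + 1), y i ^ d := by
      obtain ⟨m, rfl⟩ : ∃ m, n = (d + 1) + m := ⟨n - (d + 1), by omega⟩
      rw [Fin.sum_univ_add]
      have h4 : ∀ i : Fin (d + 1), (if h : ((Fin.castAdd m i : Fin (d + 1 + m)) : ℕ) < d + 1 then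
          y ⟨(Fin.castAdd m i : Fin (d + 1 + m)), h⟩ ^ d else 0) = y i ^ d := by
        intro i
        rw [dif_pos (show ((Fin.castAdd m i : Fin (d + 1 + m)) : ℕ) < d + 1 from i.2)]
        rfl
      have h5 : ∀ i : Fin m, (if h : ((Fin.natAdd (d + 1) i : Fin (d + 1 + m)) : ℕ) < d + 1 then
          y ⟨(Fin.natAdd (d + 1) i : Fin (d + 1 + m)), h⟩ ^ d else 0) = 0 := by
        intro i
        exact dif_neg (by rw [Fin.val_natAdd]; omega)
      rw [Finset.sum_congr rfl fun i _ => h4 i, Finset.sum_congr rfl fun i _ => h5 i,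
        Finset.sum_const_zero, add_zero]
    rw [h3, hy0, mul_zero]

end Pool.Agent.Results.MP_c95eae_ag.RealDiagonal
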