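import Pool.Agent.Helper68.Zp.Diag

/-!
# Real forms of degree not divisible by four over fields of level at most two
-/

set_option autoImplicit false

namespace Pool.Agent.Results.MP_c95eae_ag.RealForms

open MvPolynomial Pool.Agent.Helper68.Zp

/-- Let `K` be a field containing `ℝ` in which `-1` is a sum of two squares. Every form with real
coefficients, of degree `d` not divisible by `4`, in more than `d` variables, has a nontrivial zero
over `K`. -/
theorem result (K : Type*) [Field K] [Algebra ℝ K] (hK : ∃ a b : K, a ^ 2 + b ^ 2 = -1)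
    (d n : ℕ) (hd : ¬ 4 ∣ d) (hn : d < n) (f : MvPolynomial (Fin n) ℝ) (hf : f.IsHomogeneous d) :
    ∃ x : Fin n → K, x ≠ 0 ∧ MvPolynomial.eval x (MvPolynomial.map (algebraMap ℝ K) f) = 0 := by
  obtain ⟨a, b, hab⟩ := hK
  have key : ∀ g : MvPolynomial (Fin (d + 1)) ℝ, g.IsHomogeneous d →
      ∃ x : Fin (d + 1) → K, x ≠ 0 ∧ aeval x g = 0 := by
    intro g hg
    have hd0 : 0 < d := by
      rcases Nat.eq_zero_or_pos d with h | h
      · exact absurd (h ▸ dvd_zero 4) hd
      · exact h
    obtain ⟨m, rfl⟩ : ∃ m, d = m + 1 := ⟨d - 1, by omega⟩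
    rcases sign_or_zero g with h | h | h
    · exact zero_of_real h
    · rcases Nat.even_or_odd (m + 1) with he | ho
      · refine zero_of_pos_two hg ?_ h hab
        obtain ⟨c, hc⟩ := he
        omega
      · exfalso
        have h1 := h 1 one_ne_zero
        have h2 := h (fun i => -1 * (1 : Fin (m + 2) → ℝ) i) (by
          intro h3
          have := congrFun h3 0
          simp at this)
        rw [aeval_mul_left hg, ho.neg_one_pow] at h2
        linarith
    · rcases Nat.even_or_odd (m + 1) with he | ho
      · refine zero_neg (zero_of_pos_two hg.neg ?_ (fun y hy => ?_) hab)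
        · obtain ⟨c, hc⟩ := he
          omega
        · rw [map_neg]
          have := h y hy
          linarith
      · exfalso
        have h1 := h 1 one_ne_zero
        have h2 := h (fun i => -1 * (1 : Fin (m + 2) → ℝ) i) (by
          intro h3
          have := congrFun h3 0
          simp at this)
        rw [aeval_mul_left hg, ho.neg_one_pow] at h2
        linarith
  set c : Fin n → MvPolynomial (Fin (d + 1)) ℝ :=
    fun i => if h : (i : ℕ) < d + 1 then X ⟨i, h⟩ else 0 with hc
  have hg : (aeval c f).IsHomogeneous d := by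
    have h1 := hf.aeval c (n := 1) (fun i => by
      rw [hc]
      simp only
      split_ifs with h
      · exact isHomogeneous_X _ _
      · exact isHomogeneous_zero _ _ _)
    rwa [one_mul] at h1
  obtain ⟨x, hx, hx0⟩ := key _ hg
  refine ⟨fun i => if h : (i : ℕ) < d + 1 then x ⟨i, h⟩ else 0, ?_, ?_⟩
  · intro h
    apply hx
    funext i
    have h1 := congrFun h ⟨i, by omega⟩
    simpa [i.2] using h1
  · rw [eval_map, ← aeval_def]
    have h1 := MvPolynomial.comp_aeval_apply c (aeval x : MvPolynomial (Fin (d + 1)) ℝ →ₐ[ℝ] K) f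
    have h2 : (fun i : Fin n => if h : (i : ℕ) < d + 1 then x ⟨i, h⟩ else 0) =
        fun i => aeval x (c i) := by
      funext i
      rw [hc]
      simp only
      by_cases h : (i : ℕ) < d + 1
      · rw [dif_pos h, dif_pos h, aeval_X]
      · rw [dif_neg h, dif_neg h, map_zero]
    rw [h2, ← h1, hx0]

end Pool.Agent.Results.MP_c95eae_ag.RealForms
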