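import Pool.Agent.Helper69.QAC.Block

/-!
# Sums of forms in separate variables over a nonreal function field of one real variable
-/

set_option autoImplicit false

namespace Pool.Agent.Results.MP_c95eae_ag.SeparateVariables

open MvPolynomial Pool.Agent.Helper69.QAC

/-- `β m = m` if `m` is odd or `m ≤ 2`, and `β m = (2 (m / 2) ^ 2 + 1) * β (m / 2)` otherwise. -/
def β (m : ℕ) : ℕ :=
  if h : m % 2 = 1 ∨ m ≤ 2 then m else (2 * (m / 2) ^ 2 + 1) * β (m / 2)
  decreasing_by omega

theorem β_eq (m : ℕ) : β m = dbd m := by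
  induction m using Nat.strong_induction_on with
  | _ m ih =>
    rw [β, dbd]
    by_cases h : m % 2 = 1 ∨ m ≤ 2
    · rw [dif_pos h, dif_pos h]
    · rw [dif_neg h, dif_neg h, ih _ (by omega)]

/-- Let `K` be a finitely generated extension field of `ℝ` of transcendence degree one in which
`-1` is a sum of squares, and `m > 0`. If `g_1, ..., g_(β m)` are forms of degree `2 m` over `K`,
each in more than `2 m ^ 2` variables, and `e ∈ K`, then the form
`g_1(x_1) + ... + g_(β m)(x_(β m)) + e z ^ (2 m)`, in separate variables, has a nontrivial zero. -/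
theorem result (K : Type) [Field K] [Algebra ℝ K] (hFG : (⊤ : IntermediateField ℝ K).FG)
    (htr : ∃ t : K, IsTranscendenceBasis ℝ (fun _ : Unit => t)) (hs : IsSumSq (-1 : K))
    (m n : ℕ) (hm : 0 < m) (hn : 2 * m ^ 2 < n) (g : Fin (β m) → MvPolynomial (Fin n) K)
    (hg : ∀ j, (g j).IsHomogeneous (2 * m)) (e : K) :
    ∃ (x : Fin (β m) → Fin n → K) (z : K), (x ≠ 0 ∨ z ≠ 0) ∧
      ∑ j, eval (x j) (g j) + e * z ^ (2 * m) = 0 := by
  obtain ⟨t, ht⟩ := htr
  refine block hFG ht hs ?_ hm hn g hg e
  rw [β_eq]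
  exact diag_zero hFG ht hs m hm

end Pool.Agent.Results.MP_c95eae_ag.SeparateVariables
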